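import Mathlib
import Pool.Agent.TH142.PN.Defs

/-!
# Algebra of the polynomial conjugation maps
-/

set_option autoImplicit false

namespace Pool.Agent.TH828.PN

open Finset Polynomial Pool.Agent.TH91.RF Pool.Agent.TH142.PN

noncomputable section

variable {ι : Type} {N : ℕ}

theorem wS_iff {Θ v : ℕ} {x : PM ι N} : x ∈ (wF ι N Θ).F v ↔ x ∈ wS ι N Θ v := Iff.rfl

theorem one_mem_wF (Θ : ℕ) : (1 : PM ι N) ∈ (wF ι N Θ).F 0 := by
  rw [wS_iff]
  intro i a b n h
  rw [Pi.one_apply, Matrix.one_apply] at h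
  by_cases hab : a = b
  · subst hab
    rw [if_pos rfl, coeff_one] at h
    have : n = 0 := by
      by_contra hn
      exact h (if_neg hn)
    omega
  · rw [if_neg hab, coeff_zero] at h
    exact absurd rfl h

theorem px_apply (p : ι → ℝ[X]) (x : Matrix (Fin N) (Fin N) ℝ) (i : ι) (a b : Fin N) :
    px p x i a b = p i * C (x a b) := rfl

theorem px_mem {p : ι → ℝ[X]} {Θ : ℕ} (hΘ : ∀ i, (p i).natDegree < Θ)
    {x : Matrix (Fin N) (Fin N) ℝ} (hx : ∀ i j, j ≤ i → x i j = 0) :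
    px p x ∈ (wF ι N Θ).F 1 := by
  rw [wS_iff]
  intro i a b n h
  rw [px_apply, coeff_mul_C] at h
  have h1 : n ≤ (p i).natDegree := le_natDegree_of_ne_zero (left_ne_zero_of_mul h)
  have h2 : (a : ℕ) < b := by
    by_contra hcon
    exact right_ne_zero_of_mul h (hx a b (by rw [Fin.le_def]; omega))
  have h3 := hΘ i
  have h4 : Θ * ((a : ℕ) + 1) ≤ Θ * (b : ℕ) := Nat.mul_le_mul_left _ h2
  rw [mul_add, mul_one] at h4
  omega

theorem cst_mem {Θ : ℕ} (hΘ : 0 < Θ) {x : Matrix (Fin N) (Fin N) ℝ}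
    (hx : ∀ i j, j ≤ i → x i j = 0) : cst ι x ∈ (wF ι N Θ).F 1 := by
  rw [wS_iff]
  intro i a b n h
  have h0 : cst ι x i a b = C (x a b) := rfl
  rw [h0, coeff_C] at h
  have h1 : n = 0 := by
    by_contra hn
    exact h (if_neg hn)
  rw [if_pos h1] at h
  have h2 : (a : ℕ) < b := by
    by_contra hcon
    exact h (hx a b (by rw [Fin.le_def]; omega))
  have h4 : Θ * ((a : ℕ) + 1) ≤ Θ * (b : ℕ) := Nat.mul_le_mul_left _ h2
  rw [mul_add, mul_one] at h4
  omega

theorem sm_smul_add (P : ι → ℝ[X]) (c : ℝ) (x y : PM ι N) :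
    sm P (c • x + y) = c • sm P x + sm P y := by
  funext i
  simp only [sm, Pi.add_apply, Pi.smul_apply, smul_add]
  rw [smul_comm]

theorem sm_mul (P : ι → ℝ[X]) (x y : PM ι N) : sm P (x * y) = sm P x * y := by
  funext i
  simp only [sm, Pi.mul_apply, smul_mul_assoc]

theorem mul_sm (P : ι → ℝ[X]) (x y : PM ι N) : x * sm P y = sm P (x * y) := by
  funext i
  simp only [sm, Pi.mul_apply, mul_smul_comm]

theorem cst_mul (x y : Matrix (Fin N) (Fin N) ℝ) : cst ι (x * y) = cst ι x * cst ι y := by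
  funext i
  exact Matrix.map_mul

theorem dd_mem {Θ v : ℕ} {x : PM ι N} (hx : x ∈ (wF ι N Θ).F v) :
    dd ι N x ∈ (wF ι N Θ).F (v + 1) := by
  rw [wS_iff] at hx ⊢
  intro i a b n h
  have h0 : dd ι N x i a b = derivative (x i a b) := rfl
  rw [h0, coeff_derivative] at h
  have := hx i a b (n + 1) (left_ne_zero_of_mul h)
  omega

theorem dd_mul (x y : PM ι N) : dd ι N (x * y) = dd ι N x * y + x * dd ι N y := by
  funext i
  refine Matrix.ext fun a b => ?_
  have h0 : ∀ (z : PM ι N) (c d : Fin N), dd ι N z i c d = derivative (z i c d) :=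
    fun _ _ _ => rfl
  rw [h0, Pi.add_apply, Matrix.add_apply, Pi.mul_apply, Pi.mul_apply, Pi.mul_apply,
    Matrix.mul_apply, Matrix.mul_apply, Matrix.mul_apply, derivative_sum,
    ← Finset.sum_add_distrib]
  refine Finset.sum_congr rfl fun c _ => ?_
  rw [derivative_mul, h0, h0]

/-! ### nilpotency -/

theorem pow_sup {D : Matrix (Fin N) (Fin N) ℝ} (hD : ∀ i j, j ≤ i → D i j = 0) (k : ℕ) :
    ∀ a b : Fin N, (D ^ k) a b ≠ 0 → (a : ℕ) + k ≤ b := by
  induction k with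
  | zero =>
    intro a b h
    rw [pow_zero, Matrix.one_apply] at h
    have : a = b := by
      by_contra hab
      exact h (if_neg hab)
    subst this
    simp
  | succ k ih =>
    intro a b h
    rw [pow_succ, Matrix.mul_apply] at h
    obtain ⟨c, _, hc⟩ := Finset.exists_ne_zero_of_sum_ne_zero h
    have h1 := ih a c (left_ne_zero_of_mul hc)
    have h2 : (c : ℕ) < b := by
      by_contra hcon
      exact right_ne_zero_of_mul hc (hD c b (by rw [Fin.le_def]; omega))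
    omega

theorem pow_N {D : Matrix (Fin N) (Fin N) ℝ} (hD : ∀ i j, j ≤ i → D i j = 0) : D ^ N = 0 := by
  ext a b
  by_contra h
  have := pow_sup hD N a b h
  omega

theorem px_pow {D : Matrix (Fin N) (Fin N) ℝ} (hD : ∀ i j, j ≤ i → D i j = 0)
    (p : ι → ℝ[X]) : (px p D) ^ N = 0 := by
  funext i
  have h1 : px p D i = p i • (C : ℝ →+* ℝ[X]).mapMatrix D := rfl
  rw [Pi.pow_apply, h1, _root_.smul_pow, ← map_pow, pow_N hD, map_zero, smul_zero]
  rfl

theorem px_nilp {D : Matrix (Fin N) (Fin N) ℝ} (hD : ∀ i j, j ≤ i → D i j = 0)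
    (p : ι → ℝ[X]) : IsNilpotent (px p D) := ⟨N, px_pow hD p⟩

theorem commute_exp {A : Type*} [Ring A] [Algebra ℚ A] {a b : A} (ha : IsNilpotent a)
    (h : Commute b a) : Commute b (IsNilpotent.exp a) := by
  obtain ⟨k, hk⟩ := ha
  rw [IsNilpotent.exp_eq_sum hk]
  exact Commute.sum_right _ _ _ fun i _ => (h.pow_right i).smul_right _

theorem commute_px (D : Matrix (Fin N) (Fin N) ℝ) (p : ι → ℝ[X]) :
    Commute (cst ι D) (px p D) := by
  unfold Commute SemiconjBy px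
  rw [mul_sm, ← sm_mul]

theorem sm_sub (P : ι → ℝ[X]) (x y : PM ι N) : sm P (x - y) = sm P x - sm P y := by
  funext i
  simp only [sm, Pi.sub_apply, smul_sub]

section

variable (S : Dt N) (p : ι → ℝ[X])

theorem EE_smul_add (c : ℝ) (x y : Matrix (Fin N) (Fin N) ℝ) :
    EE p S.D (c • x + y) = c • EE p S.D x + EE p S.D y := by
  unfold EE
  rw [map_add, map_smul, mul_add, add_mul, mul_smul_comm, smul_mul_assoc]

theorem FF_smul_add (c : ℝ) (x y : Matrix (Fin N) (Fin N) ℝ) :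
    FF p S.D (c • x + y) = c • FF p S.D x + FF p S.D y := by
  unfold FF
  rw [EE_smul_add, sm_smul_add]

theorem EE_sub (x y : Matrix (Fin N) (Fin N) ℝ) :
    EE p S.D (x - y) = EE p S.D x - EE p S.D y := by
  unfold EE
  rw [map_sub, mul_sub, sub_mul]

theorem EE_mul (x y : Matrix (Fin N) (Fin N) ℝ) :
    EE p S.D (x * y) = EE p S.D x * EE p S.D y := by
  have h := IsNilpotent.exp_neg_mul_exp_self (px_nilp S.supD p)
  unfold EE
  set e := IsNilpotent.exp (px p S.D)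
  set e' := IsNilpotent.exp (-(px p S.D))
  rw [cst_mul]
  calc e * (cst ι x * cst ι y) * e' = e * cst ι x * 1 * cst ι y * e' := by
        rw [mul_one]; simp only [mul_assoc]
    _ = e * cst ι x * (e' * e) * cst ι y * e' := by rw [h]
    _ = e * cst ι x * e' * (e * cst ι y * e') := by simp only [mul_assoc]

theorem EE_br (x y : Matrix (Fin N) (Fin N) ℝ) :
    EE p S.D (x * y - y * x) = EE p S.D x * EE p S.D y - EE p S.D y * EE p S.D x := by
  rw [EE_sub, EE_mul, EE_mul]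

theorem FF_br (x y : Matrix (Fin N) (Fin N) ℝ) :
    FF p S.D (x * y - y * x) = FF p S.D x * EE p S.D y - EE p S.D y * FF p S.D x := by
  unfold FF
  rw [EE_br, sm_sub, sm_mul, ← mul_sm]

theorem EE_self : EE p S.D S.D = cst ι S.D := by
  have hn := px_nilp S.supD p
  have h := IsNilpotent.exp_mul_exp_neg_self hn
  have hc : Commute (cst ι S.D) (IsNilpotent.exp (px p S.D)) :=
    commute_exp hn (commute_px S.D p)
  unfold EE
  rw [← hc.eq, mul_assoc, h, mul_one]

theorem EE_D (x : Matrix (Fin N) (Fin N) ℝ) :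
    EE p S.D (S.D * x - x * S.D) = cst ι S.D * EE p S.D x - EE p S.D x * cst ι S.D := by
  rw [EE_br, EE_self]

theorem FF_D (x : Matrix (Fin N) (Fin N) ℝ) :
    FF p S.D (S.D * x - x * S.D) = cst ι S.D * FF p S.D x - FF p S.D x * cst ι S.D := by
  unfold FF
  rw [EE_D, sm_sub, mul_sm, ← sm_mul]

theorem exp_mem_wF {Θ : ℕ} {z : PM ι N} (hz : z ∈ (wF ι N Θ).F 1) :
    IsNilpotent.exp z ∈ (wF ι N Θ).F 0 := by
  have h1 := (wF ι N Θ).exp_sub_one_mem hz
  have h2 := (wF ι N Θ).anti (Nat.zero_le 1) h1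
  have h3 := Submodule.add_mem _ h2 (one_mem_wF (ι := ι) (N := N) Θ)
  rwa [sub_add_cancel] at h3

theorem conj_mem_wF {Θ : ℕ} {z w : PM ι N} (hz : z ∈ (wF ι N Θ).F 1)
    (hw : w ∈ (wF ι N Θ).F 1) :
    IsNilpotent.exp z * w * IsNilpotent.exp (-z) ∈ (wF ι N Θ).F 1 := by
  have h := (wF ι N Θ).mul ((wF ι N Θ).mul (exp_mem_wF hz) hw)
    (exp_mem_wF (Submodule.neg_mem _ hz))
  simpa using h

theorem EE_mem_wF {Θ : ℕ} (hΘ : ∀ i, (p i).natDegree < Θ) (hΘ0 : 0 < Θ)
    {x : Matrix (Fin N) (Fin N) ℝ} (hx : ∀ i j, j ≤ i → x i j = 0) :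
    EE p S.D x ∈ (wF ι N Θ).F 1 :=
  conj_mem_wF (px_mem hΘ S.supD) (cst_mem hΘ0 hx)

theorem FF_mem_wF {Θ : ℕ} (hΘ : ∀ i, (p i).natDegree < Θ) (hΘ0 : 0 < Θ)
    {x : Matrix (Fin N) (Fin N) ℝ} (hx : ∀ i j, j ≤ i → x i j = 0) :
    FF p S.D x ∈ (wF ι N Θ).F 1 := by
  have e : FF p S.D x = IsNilpotent.exp (px p S.D) * px (fun i => derivative (p i)) x *
      IsNilpotent.exp (-(px p S.D)) := by
    unfold FF EE
    rw [sm_mul, ← mul_sm]
    rfl
  rw [e]
  refine conj_mem_wF (px_mem hΘ S.supD) (px_mem (fun i => ?_) hx)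
  have h1 := natDegree_derivative_le (p i)
  have h2 := hΘ i
  omega

end

end

end Pool.Agent.TH828.PN
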